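import Pool.Agent.helper13.RF.SpecU
import Pool.Agent.helper60.RF.DEL

/-!
# Project RF (MP_16912e_nt), stage 2, block B', row URG: good points
-/

set_option autoImplicit false

namespace Pool.Agent.RF

open NumberField

/-- a prime number that divides `f` and is in `P` -/
theorem URG_prime (F : Type) [Field F] [NumberField F] (P : Ideal (𝓞 F)) (hP : P.IsPrime) :
    ∀ n : ℕ, n ≠ 0 → (n : 𝓞 F) ∈ P → ∃ l : ℕ, l.Prime ∧ l ∣ n ∧ (l : 𝓞 F) ∈ P := by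
  intro n
  induction n using Nat.strong_induction_on with
  | _ n ih =>
    intro hn hnP
    by_cases h1 : n = 1
    · exfalso
      subst h1
      apply hP.ne_top
      rw [Ideal.eq_top_iff_one]
      simpa using hnP
    · have hm := Nat.minFac_prime h1
      obtain ⟨k, hk⟩ := Nat.minFac_dvd n
      have hk0 : k ≠ 0 := by
        rintro rfl
        simp at hk
        exact hn hk
      have : ((n.minFac : ℕ) : 𝓞 F) * (k : 𝓞 F) ∈ P := by
        rw [← Nat.cast_mul, ← hk]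
        exact hnP
      rcases hP.mem_or_mem this with h | h
      · exact ⟨_, hm, Nat.minFac_dvd n, h⟩
      · have hlt : k < n := by
          conv_rhs => rw [hk]
          have := hm.two_le
          nlinarith [Nat.pos_of_ne_zero hk0]
        obtain ⟨l, e1, e2, e3⟩ := ih k hlt hk0 h
        exact ⟨l, e1, e2.trans ⟨n.minFac, by rw [mul_comm]; exact hk⟩, e3⟩

/-- a good point: `ι n, ι n'` are not in a prime above `f` -/
theorem URG_good (D₀ : ℤ) (F : Type) [Field F] [NumberField F] (C : Ctx D₀ F) (f : ℕ) (hf : (f : 𝓞 F) ≠ 0) (n : OO)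
    (hn : ∀ l : ℕ, l.Prime → l ∣ f → ¬ (l : ℤ) ∣ n.norm) (P : Ideal (𝓞 F)) (hP : P.IsPrime) (hfP : (f : 𝓞 F) ∈ P) :
    C.ι n ∉ P ∧ C.ι (star n) ∉ P := by
  have hf0 : f ≠ 0 := by
    rintro rfl
    exact hf (by simp)
  obtain ⟨l, hl, hlf, hlP⟩ := URG_prime F P hP f hf0 hfP
  have hN : ((n.norm : ℤ) : 𝓞 F) ∉ P := by
    intro hh
    have hcop : IsCoprime (l : ℤ) n.norm := (Nat.prime_iff_prime_int.1 hl).coprime_iff_not_dvd.2 (hn l hl hlf)
    obtain ⟨a, b, hab⟩ := hcop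
    apply hP.ne_top
    rw [Ideal.eq_top_iff_one]
    have : (1 : 𝓞 F) = (a : 𝓞 F) * (l : 𝓞 F) + (b : 𝓞 F) * ((n.norm : ℤ) : 𝓞 F) := by
      exact_mod_cast congrArg (fun z : ℤ => (z : 𝓞 F)) hab.symm
    rw [this]
    exact P.add_mem (P.mul_mem_left _ hlP) (P.mul_mem_left _ hh)
  have hmul : C.ι n * C.ι (star n) = ((n.norm : ℤ) : 𝓞 F) := by
    rw [← map_mul]
    have : n * star n = ((n.norm : ℤ) : OO) := by
      rw [← QuadraticAlgebra.algebraMap_norm_eq_mul_star]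
      rfl
    rw [this, map_intCast]
  constructor
  · intro h
    apply hN
    rw [← hmul]
    exact P.mul_mem_right _ h
  · intro h
    apply hN
    rw [← hmul]
    exact P.mul_mem_left _ h

/-- the valuations of `u`, `τ u` at a prime above `f` -/
theorem URG_val (h1 : UUE_stmt) (h4 : VVM_stmt) (D₀ : ℤ) (F : Type) [Field F] [NumberField F] (C : Ctx D₀ F) (p : Pt) (f : ℕ)
    (hp : IsPt2 p) (hpD : p.D = D₀ * (f : ℤ) ^ 2) (hn : ∀ l : ℕ, l.Prime → l ∣ f → ¬ (l : ℤ) ∣ p.n.norm)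
    (P : Ideal (𝓞 F)) (hP : P.IsPrime) (hfP : (f : 𝓞 F) ∈ P) :
    P ≠ ⊥ ∧ vv P (uu C f p) = 0 ∧ vv P (C.σ (C.σ (uu C f p))) = 0 := by
  obtain ⟨-, -, a3, -, -, -, -, -, -, -, -, hf0, -, hu0, hn0, -, -, -, -⟩ := h1 D₀ F C p f hp hpD
  have hP0 : P ≠ ⊥ := by
    rintro rfl
    exact hf0 (by simpa using hfP)
  have hτ0 : C.σ (C.σ (uu C f p)) ≠ 0 := by
    intro h
    exact hu0 (by simpa using h)
  have hv := (h4 F P hP hP0).1 _ _ hu0 hτ0
  rw [a3, DEL_pow h4 F P hP hP0 _ hn0] at hv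
  have hz : vv P (C.ι p.n) = 0 := by
    by_contra hne
    exact (URG_good D₀ F C f hf0 p.n hn P hP hfP).1 (((h4 F P hP hP0).2.1 _ hn0).1 (Nat.pos_of_ne_zero hne))
  rw [hz] at hv
  exact ⟨hP0, by omega, by omega⟩

/-- the Galois condition for one point -/
theorem URG_g (h1 : UUE_stmt) (D₀ : ℤ) (F : Type) [Field F] [NumberField F]
    (C : Ctx D₀ F) (p : Pt) (f : ℕ) (hp : IsPt2 p) (hpD : p.D = D₀ * (f : ℤ) ^ 2) :
    be C f p ≠ 0 ∧ (∃ g : F, C.s (be C f p : F) = (be C f p : F) ^ 2 * g ^ 5) ∧ (25 : 𝓞 F) ∣ be C f p - 1 := by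
  obtain ⟨-, -, -, -, -, a6, -, -, -, -, -, -, p5, -, p3, p4, -, -, -⟩ := h1 D₀ F C p f hp hpD
  have p1 : th C f p * C.σ (C.σ (th C f p)) = C.ι p.n ^ 2 * C.ι (star p.n) := by
    rw [a6, map_mul, map_pow]
  have p6 : C.σ (C.ι p.n) = C.ι (star p.n) := C.σι _
  have p7 : C.σ (C.ι (star p.n)) = C.ι p.n := by rw [C.σι, star_star]
  have p9 : ∀ x : 𝓞 F, x ≠ 0 → C.σ x ≠ 0 := by
    intro x hx h
    exact hx (by simpa using h)
  have cs : ∀ x : 𝓞 F, x ≠ 0 → (x : F) ≠ 0 := by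
    intro x hx h
    exact hx (by simpa using h)
  have hb : be C f p = (th C f p) ^ 2 * C.σ (th C f p) * (C.ι (star p.n)) ^ 3 := rfl
  refine ⟨?_, ?_, ?_⟩
  · rw [hb]
    exact mul_ne_zero (mul_ne_zero (pow_ne_zero _ p5) (p9 _ p5)) (pow_ne_zero _ p4)
  · refine ⟨(C.ι p.n : F) / ((th C f p : F) * (C.ι (star p.n) : F)), ?_⟩
    rw [← C.hσ, hb]
    have e1 : C.σ ((th C f p) ^ 2 * C.σ (th C f p) * (C.ι (star p.n)) ^ 3) =
        (C.σ (th C f p)) ^ 2 * C.σ (C.σ (th C f p)) * (C.ι p.n) ^ 3 := by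
      rw [map_mul, map_mul, map_pow, map_pow, p7]
    rw [e1]
    have k1 : (C.ι p.n : F) ≠ 0 := cs _ p3
    have k2 : (C.ι (star p.n) : F) ≠ 0 := cs _ p4
    have k3 : (th C f p : F) ≠ 0 := cs _ p5
    have k4 : ((C.σ (th C f p) : 𝓞 F) : F) ≠ 0 := cs _ (p9 _ p5)
    have q1 : (th C f p : F) * ((C.σ (C.σ (th C f p)) : 𝓞 F) : F) = (C.ι p.n : F) ^ 2 * (C.ι (star p.n) : F) := by
      exact_mod_cast congrArg (algebraMap (𝓞 F) F) p1
    push_cast
    rw [div_pow, ← mul_div_assoc, eq_div_iff (pow_ne_zero _ (mul_ne_zero k3 k2))]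
    calc ((C.σ (th C f p) : 𝓞 F) : F) ^ 2 * ((C.σ (C.σ (th C f p)) : 𝓞 F) : F) * (C.ι p.n : F) ^ 3 *
          ((th C f p : F) * (C.ι (star p.n) : F)) ^ 5
        = ((th C f p : F) * ((C.σ (C.σ (th C f p)) : 𝓞 F) : F)) * (((C.σ (th C f p) : 𝓞 F) : F) ^ 2 *
          (C.ι p.n : F) ^ 3 * (th C f p : F) ^ 4 * (C.ι (star p.n) : F) ^ 5) := by ring
      _ = _ := by rw [q1]; ring
  · have hX : (25 : 𝓞 F) ∣ C.ι p.X - 1 := by
      obtain ⟨c, hc⟩ := hp.X1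
      refine ⟨C.ι c, ?_⟩
      have := congrArg C.ι hc
      rw [map_sub, map_one, map_mul] at this
      rw [this]
      congr 1
      exact map_ofNat C.ι 25
    have hn : (25 : 𝓞 F) ∣ C.ι p.n - 1 := by
      obtain ⟨c, hc⟩ := hp.n1
      refine ⟨C.ι c, ?_⟩
      have := congrArg C.ι hc
      rw [map_sub, map_one, map_mul] at this
      rw [this]
      congr 1
      exact map_ofNat C.ι 25
    have s25 : C.σ (25 : 𝓞 F) = 25 := map_ofNat C.σ 25
    have hn' : (25 : 𝓞 F) ∣ C.ι (star p.n) - 1 := by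
      have := map_dvd C.σ hn
      rwa [map_sub, map_one, p6, s25] at this
    have hθ : (25 : 𝓞 F) ∣ th C f p - 1 := by
      unfold th
      have : C.ι p.X + C.ι (25 * p.k) * (f : 𝓞 F) * C.w - 1 = (C.ι p.X - 1) + 25 * (C.ι p.k * (f : 𝓞 F) * C.w) := by
        rw [map_mul, map_ofNat C.ι 25]
        ring
      rw [this]
      exact dvd_add hX (Dvd.intro _ rfl)
    have hθ' : (25 : 𝓞 F) ∣ C.σ (th C f p) - 1 := by
      have := map_dvd C.σ hθ
      rwa [map_sub, map_one, s25] at this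
    rw [hb]
    obtain ⟨a, ha⟩ := hθ
    obtain ⟨b, hb'⟩ := hθ'
    obtain ⟨c, hc⟩ := hn'
    have e1 : th C f p = 1 + 25 * a := by rw [← ha]; ring
    have e2 : C.σ (th C f p) = 1 + 25 * b := by rw [← hb']; ring
    have e3 : C.ι (star p.n) = 1 + 25 * c := by rw [← hc]; ring
    rw [e2, e3, e1]
    exact ⟨((1 + 25 * a) ^ 2 * (1 + 25 * b) * ((1 + 25 * c) ^ 2 + (1 + 25 * c) + 1) * c + (1 + 25 * a) ^ 2 * b + (2 + 25 * a) * a), by ring⟩

theorem URG (h1 : UUE_stmt) (h2 : ULN_stmt) (h4 : VVM_stmt) (h5 : VV5_stmt) : URG_stmt := by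
  intro D₀ F _ _ C f hD p hp hpD hpn
  constructor
  · obtain ⟨b0, hg, d1⟩ := URG_g h1 D₀ F C p f hp hpD
    obtain ⟨-, -, -, a4, -, -, -, -, -, -, -, hf0, -, hu0, -, hn0', -, -, -⟩ := h1 D₀ F C p f hp hpD
    refine ⟨b0, hg, ?_, ?_⟩
    · apply (h5 F).2 _ b0
      intro P hP hP0
      rw [a4, (h4 F P hP hP0).1 _ _ hu0 (pow_ne_zero _ hn0'), DEL_pow h4 F P hP hP0 _ hn0']
      have h5u : 5 ∣ vv P (uu C f p) := by
        by_cases hfP : (f : 𝓞 F) ∈ P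
        · rw [(URG_val h1 h4 D₀ F C p f hp hpD hpn P hP hfP).2.1]
          exact dvd_zero _
        · exact (h2 D₀ F C p f hD hp hpD P hP hP0 hfP).1
      exact dvd_add h5u (dvd_mul_right _ _)
    · obtain ⟨a, ha⟩ := d1
      exact ⟨a, by rw [← ha]; ring⟩
  · intro q hq hqD hqn P hP hfP
    rw [(URG_val h1 h4 D₀ F C p f hp hpD hpn P hP hfP).2.2, (URG_val h1 h4 D₀ F C q f hq hqD hqn P hP hfP).2.2]
    exact ⟨by simp, rfl⟩

end Pool.Agent.RF
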